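import Pool.Agent.Helper36_M1D.Stmts

/-! M1D: module BCP (the sigma-closure-preserving base). -/

set_option autoImplicit false
open Set Topology Filter

namespace Pool.Agent.MD

theorem bcp (hFK : FK) (hTAU : TAU) (hS : BSAND) : BASE := by
  intro M G _ _ D
  classical
  obtain ⟨b, hbc, -, hb⟩ := TopologicalSpace.exists_countable_basis M
  have hcont := hTAU.cont_toM M G D
  have hpre : ∀ O : Set M, IsOpen O → IsOpen (D.toM ⁻¹' O) := fun O hO => hO.preimage hcont
  -- the sets V
  have hV : ∀ c : {c : ℚ × ℚ // 0 ≤ c.1 ∧ c.1 < c.2}, ∃ V : G → Set M, (∀ g, IsOpen (V g)) ∧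
      (∀ g p, (c.1.2 : ℝ) ≤ D.f g p → p ∈ V g) ∧ (∀ g p, p ∈ V g → (c.1.1 : ℝ) < D.f g p) ∧
      (∀ q, (c.1.1 : ℝ) < D.NN q → ∃ O : Set M, IsOpen O ∧ q ∈ O ∧
        (Set.range fun g => V g ∩ O).Finite) ∧
      (∀ q, D.NN q ≤ (c.1.1 : ℝ) → ∀ g, q ∉ D.K g → ∃ O : Set M, IsOpen O ∧ q ∈ O ∧
        Disjoint O (V g)) := by
    intro c
    exact hS M G D c.1.1 c.1.2 (by exact_mod_cast c.2.1) (by exact_mod_cast c.2.2)
  choose V hVo hV1 hV2 hV3 hV4 using hV
  set W : {c : ℚ × ℚ // 0 ≤ c.1 ∧ c.1 < c.2} → G → Set D.TX :=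
    fun c g => (closure (D.toM ⁻¹' (V c g)))ᶜ with hW
  have hWo : ∀ c g, IsOpen (W c g) := fun c g => isClosed_closure.isOpen_compl
  have hWs : ∀ c g (x : D.TX), x ∈ W c g → D.f g (D.toM x) < c.1.2 := by
    intro c g x hx
    by_contra hcon
    exact hx (subset_closure (hV1 c g _ (not_lt.1 hcon)))
  have hWs' : ∀ c g (x : D.TX), D.f g (D.toM x) < c.1.1 → x ∈ W c g := by
    intro c g x hx hcl
    have h1 : closure (D.toM ⁻¹' (V c g)) ⊆ {y : D.TX | (c.1.1 : ℝ) ≤ D.f g (D.toM y)} := by
      refine closure_minimal ?_ (isClosed_le continuous_const (hTAU.cont_f M G D g))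
      intro y hy
      exact (hV2 c g _ hy).le
    have h2 : (c.1.1 : ℝ) ≤ D.f g (D.toM x) := h1 hcl
    linarith
  -- the families
  have : Countable b := hbc.to_subtype
  set I : Type := ({c : ℚ × ℚ // 0 ≤ c.1 ∧ c.1 < c.2} × b) ⊕ b with hI
  let Bf : I → Set (Set D.TX) := fun i => match i with
    | Sum.inl c => Set.range fun g : G => W c.1 g ∩ D.toM ⁻¹' (c.2 : Set M)
    | Sum.inr o => {D.toM ⁻¹' (o : Set M)}
  have : Countable I := by rw [hI]; infer_instance
  have : Encodable I := Encodable.ofCountable I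
  set B : ℕ → Set (Set D.TX) := fun n => ⋃ i ∈ {i : I | Encodable.encode i = n}, Bf i with hB
  have hBi : ∀ i : I, Bf i ⊆ ⋃ n, B n := by
    intro i U hU
    refine mem_iUnion.2 ⟨Encodable.encode i, ?_⟩
    exact mem_biUnion (show i ∈ {j : I | Encodable.encode j = Encodable.encode i} from rfl) hU
  refine ⟨B, ?_, ?_⟩
  · refine TopologicalSpace.isTopologicalBasis_of_isOpen_of_nhds ?_ ?_
    · intro U hU
      simp only [hB, mem_iUnion] at hU
      obtain ⟨n, i, -, hU⟩ := hU
      rcases i with ⟨c, o⟩ | o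
      · obtain ⟨g, rfl⟩ := hU
        exact (hWo c g).inter (hpre _ (hb.isOpen o.2))
      · rw [mem_singleton_iff.1 hU]
        exact hpre _ (hb.isOpen o.2)
    · intro x U hx hU
      have hUn : U ∈ 𝓝 (D.toX (D.toM x)) := hU.mem_nhds hx
      by_cases hK : ∃ g, D.toM x ∈ D.K g
      · obtain ⟨g, hg⟩ := hK
        obtain ⟨t, ht, O, hO, hxO, hOU⟩ := (hTAU.nhds_mem M G D g (D.toM x) U hg).1 hUn
        obtain ⟨s', hs1, hs2⟩ := exists_rat_btwn ht
        obtain ⟨s, hs3, hs4⟩ := exists_rat_btwn hs2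
        obtain ⟨o, ho, hxo, hoO⟩ := hb.exists_subset_of_mem_open hxO hO
        have h0 : (0 : ℝ) ≤ s' := (hFK.NN_nonneg M G D (D.toM x)).trans hs1.le
        have h0' : (0 : ℚ) ≤ s' := by exact_mod_cast h0
        have h1' : s' < s := by exact_mod_cast hs3
        refine ⟨W ⟨(s', s), h0', h1'⟩ g ∩ D.toM ⁻¹' o, ?_, ?_, ?_⟩
        · exact hBi (Sum.inl (⟨(s', s), h0', h1'⟩, ⟨o, ho⟩)) ⟨g, rfl⟩
        · refine ⟨hWs' _ g x ?_, hxo⟩
          exact lt_of_le_of_lt (hFK.f_le_NN M G D g _) hs1
        · rintro y ⟨hy1, hy2⟩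
          have h2 := hWs _ g y hy1
          exact hOU (D.toM y) (hoO hy2) (h2.trans hs4)
      · push Not at hK
        have h1 := (hTAU.nhds_notMem M G D (D.toM x) U hK).1 hUn
        obtain ⟨o, ho, hxo, hoU⟩ := hb.mem_nhds_iff.1 h1
        refine ⟨D.toM ⁻¹' o, hBi (Sum.inr ⟨o, ho⟩) rfl, hxo, ?_⟩
        intro y hy
        exact hoU hy
  · intro n F hF
    refine Subset.antisymm ?_ ?_
    swap
    · exact iUnion₂_subset fun U hU => closure_mono (subset_sUnion_of_mem hU)
    intro x hx
    -- all members of `F` come from one index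
    have hone : ∀ U ∈ F, ∃ i : I, Encodable.encode i = n ∧ U ∈ Bf i := by
      intro U hU
      have := hF hU
      simp only [hB, mem_iUnion] at this
      obtain ⟨i, hi, hUi⟩ := this
      exact ⟨i, hi, hUi⟩
    have hFne : F.Nonempty := by
      by_contra hcon
      rw [Set.not_nonempty_iff_eq_empty] at hcon
      rw [hcon] at hx
      simp at hx
    obtain ⟨U0, hU0⟩ := hFne
    obtain ⟨i, hi, -⟩ := hone U0 hU0
    have hall : ∀ U ∈ F, U ∈ Bf i := by
      intro U hU
      obtain ⟨j, hj, hUj⟩ := hone U hU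
      have : j = i := Encodable.encode_injective (hj.trans hi.symm)
      rw [← this]
      exact hUj
    rcases i with ⟨c, o⟩ | o
    · -- the main case
      have hall' : ∀ U ∈ F, ∃ g : G, W c g ∩ D.toM ⁻¹' (o : Set M) = U := fun U hU => hall U hU
      by_cases hN : (c.1.1 : ℝ) < D.NN (D.toM x)
      · obtain ⟨O, hO, hxO, hfin⟩ := hV3 c (D.toM x) hN
        set P : Set D.TX := D.toM ⁻¹' O with hP
        have hPo : IsOpen P := hpre O hO
        have hdet : ∀ g : G, W c g ∩ P = P \ closure (D.toM ⁻¹' (V c g ∩ O)) := by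
          intro g
          ext y
          constructor
          · rintro ⟨hy1, hy2⟩
            refine ⟨hy2, fun hcl => hy1 (closure_mono ?_ hcl)⟩
            exact preimage_mono inter_subset_left
          · rintro ⟨hy1, hy2⟩
            refine ⟨fun hcl => hy2 ?_, hy1⟩
            have h1 : y ∈ P ∩ closure (D.toM ⁻¹' (V c g)) := ⟨hy1, hcl⟩
            have h2 := hPo.inter_closure h1
            refine closure_mono ?_ h2
            rintro z ⟨hz1, hz2⟩
            exact ⟨hz2, hz1⟩
        set A : Set (Set D.TX) := (fun U => U ∩ P) '' F with hA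
        have hAfin : A.Finite := by
          refine (hfin.image (fun T : Set M =>
            (P \ closure (D.toM ⁻¹' T)) ∩ D.toM ⁻¹' (o : Set M))).subset ?_
          rintro _ ⟨U, hU, rfl⟩
          obtain ⟨g, hg⟩ := hall' U hU
          refine ⟨V c g ∩ O, ⟨g, rfl⟩, ?_⟩
          show (P \ closure (D.toM ⁻¹' (V c g ∩ O))) ∩ D.toM ⁻¹' (o : Set M) = U ∩ P
          rw [← hdet g, ← hg]
          ext y
          simp only [mem_inter_iff]
          tauto
        have h1 : x ∈ closure (⋃₀ A) := by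
          have h2 : x ∈ P ∩ closure (⋃₀ F) := ⟨hxO, hx⟩
          have h3 := hPo.inter_closure h2
          refine closure_mono ?_ h3
          rintro y ⟨hy1, U, hU, hyU⟩
          exact ⟨U ∩ P, ⟨U, hU, rfl⟩, hyU, hy1⟩
        rw [hAfin.closure_sUnion] at h1
        simp only [mem_iUnion] at h1
        obtain ⟨_, ⟨U, hU, rfl⟩, hxU⟩ := h1
        exact mem_biUnion hU (closure_mono inter_subset_left hxU)
      · have hN' : D.NN (D.toM x) ≤ c.1.1 := not_lt.1 hN
        by_cases hex : ∃ U ∈ F, ∃ g : G, W c g ∩ D.toM ⁻¹' (o : Set M) = U ∧ D.toM x ∉ D.K g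
        · obtain ⟨U, hU, g, hg, hxg⟩ := hex
          refine mem_biUnion hU ?_
          obtain ⟨O, hO, hxO, hdis⟩ := hV4 c (D.toM x) hN' g hxg
          have hxW : x ∈ W c g := by
            intro hcl
            have h1 : (D.toM ⁻¹' O ∩ D.toM ⁻¹' (V c g)).Nonempty :=
              mem_closure_iff.1 hcl _ (hpre O hO) hxO
            obtain ⟨y, hy1, hy2⟩ := h1
            exact (Set.disjoint_left.1 hdis) hy1 hy2
          have hxo : x ∈ closure (D.toM ⁻¹' (o : Set M)) := by
            refine closure_mono ?_ hx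
            rintro y ⟨U', hU', hy⟩
            obtain ⟨g', hg'⟩ := hall' U' hU'
            rw [← hg'] at hy
            exact hy.2
          have h2 := (hWo c g).inter_closure ⟨hxW, hxo⟩
          rw [hg] at h2
          exact h2
        · push Not at hex
          have hsub : F = {U0} := by
            refine Set.eq_singleton_iff_unique_mem.2 ⟨hU0, fun U hU => ?_⟩
            obtain ⟨g, hg⟩ := hall' U hU
            obtain ⟨g0, hg0⟩ := hall' U0 hU0
            have h1 := hex U hU g hg
            have h2 := hex U0 hU0 g0 hg0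
            have h3 : g = g0 := D.disj g g0 (D.toM x) h1 h2
            rw [← hg, ← hg0, h3]
          rw [hsub, sUnion_singleton] at hx
          exact mem_biUnion hU0 hx
    · have hsub : F = {U0} := by
        refine Set.eq_singleton_iff_unique_mem.2 ⟨hU0, fun U hU => ?_⟩
        have h1 : U = D.toM ⁻¹' (o : Set M) := hall U hU
        have h2 : U0 = D.toM ⁻¹' (o : Set M) := hall U0 hU0
        rw [h1, h2]
      rw [hsub, sUnion_singleton] at hx
      exact mem_biUnion hU0 hx

end Pool.Agent.MD
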