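import Pool.Agent.Helper36_M1D.Stmts

/-! M1D: module BSAND (the sets `V g`). -/

set_option autoImplicit false
open Set Topology Filter

namespace Pool.Agent.MD

theorem bsand (hFK : FK) : BSAND := by
  intro M G _ _ D s' s hs' hss
  classical
  -- levels
  set C : ℕ → Set M := fun m => {p | s' < D.N (m + 1) p ∧ D.N m p ≤ s'} with hC
  have hCopen : ∀ m, IsOpen (C m) := by
    intro m
    have h1 : C m = (D.N (m + 1)) ⁻¹' (Ioi s') ∩ (D.N m) ⁻¹' (Iic s') := by
      ext p; simp [hC]
    rw [h1]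
    exact (D.N_lc (m + 1) _).inter (D.N_lc m _)
  have hCclosed : ∀ m, IsClosed (C m) := by
    intro m
    have h1 : (C m)ᶜ = (D.N (m + 1)) ⁻¹' (Iic s') ∪ (D.N m) ⁻¹' (Ioi s') := by
      ext p
      simp only [hC, mem_compl_iff, Set.mem_ofPred_eq, mem_union, mem_preimage, mem_Iic, mem_Ioi,
        not_and_or, not_lt, not_le]
    rw [← isOpen_compl_iff, h1]
    exact (D.N_lc (m + 1) _).union (D.N_lc m _)
  have hCdisj : ∀ m k p, p ∈ C m → p ∈ C k → m = k := by
    intro m k p hm hk
    rcases lt_trichotomy m k with h | h | h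
    · have := D.N_mono p (show m + 1 ≤ k by omega)
      have h1 := hm.1
      have h2 := hk.2
      simp only at this
      linarith
    · exact h
    · have := D.N_mono p (show k + 1 ≤ m by omega)
      have h1 := hk.1
      have h2 := hm.2
      simp only at this
      linarith
  have hCex : ∀ p, s' < D.NN p → ∃ m, p ∈ C m := by
    intro p hp
    have h1 := (hFK.lt_NN_iff M G D p s').1 hp
    have h2 := Nat.find_spec h1
    have h3 : Nat.find h1 ≠ 0 := by
      intro h0
      rw [h0, D.N_zero] at h2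
      linarith
    obtain ⟨m, hm⟩ := Nat.exists_eq_succ_of_ne_zero h3
    refine ⟨m, ?_, ?_⟩
    · rw [hm] at h2
      exact h2
    · have := Nat.find_min h1 (m := m) (by omega)
      exact not_lt.1 this
  set r : ℕ → ℝ := fun m => (s - s') / (4 * (m + 1)) with hr
  have hrpos : ∀ m, 0 < r m := fun m => by
    have : 0 < s - s' := by linarith
    simp only [hr]; positivity
  have hr2 : ∀ m : ℕ, ((m : ℝ) + 1) * (2 * r m) = (s - s') / 2 := by
    intro m
    have : ((m : ℝ) + 1) ≠ 0 := by positivity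
    simp only [hr]; field_simp; ring
  have ht : ∀ m, ∃ t : Set M, t.Finite ∧ ∀ p, ∃ x ∈ t, p ∈ Metric.ball x (r m) := by
    intro m
    obtain ⟨t, -, htf, htc⟩ := Metric.finite_approx_of_totallyBounded
      (isCompact_univ (X := M)).totallyBounded (r m) (hrpos m)
    refine ⟨t, htf, fun p => ?_⟩
    have := htc (mem_univ p)
    simpa using this
  choose t htf htc using ht
  set W : ℕ → M → Set M := fun m x => Metric.ball x (r m) ∩ C m with hW
  set S : G → ℕ → Set M := fun g m => {x | x ∈ t m ∧ ∃ y ∈ W m x, s ≤ D.f g y} with hS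
  refine ⟨fun g => ⋃ m, ⋃ x ∈ S g m, W m x, ?_, ?_, ?_, ?_, ?_⟩
  · intro g
    exact isOpen_iUnion fun m => isOpen_biUnion fun x _ => Metric.isOpen_ball.inter (hCopen m)
  · intro g p hp
    have h1 : s' < D.NN p := lt_of_lt_of_le (by linarith) (hFK.f_le_NN M G D g p)
    obtain ⟨m, hm⟩ := hCex p h1
    obtain ⟨x, hx, hpx⟩ := htc m p
    exact mem_iUnion.2 ⟨m, mem_biUnion (show x ∈ S g m from ⟨hx, p, ⟨hpx, hm⟩, hp⟩) ⟨hpx, hm⟩⟩
  · intro g p hp
    simp only [mem_iUnion] at hp
    obtain ⟨m, x, hx, hpx⟩ := hp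
    obtain ⟨hxt, y, hy, hys⟩ := hx
    have h1 : (s + s') / 2 < D.f g y := by linarith
    obtain ⟨k, hk1, hk2⟩ := (hFK.lt_f_iff M G D g y _).1 h1
    have hkm : m + 1 ≤ k := by
      by_contra hcon
      have h2 := D.N_mono y (show k ≤ m by omega)
      have h3 := hy.2.2
      simp only at h2
      linarith
    rw [hFK.lt_f_iff]
    refine ⟨m + 1, hpx.2.1, ?_⟩
    have h4 : D.dl g p ≤ D.dl g y + 2 * r m := by
      have h5 := D.dl_lip g p y
      have h6 : dist p y ≤ dist p x + dist y x := dist_triangle_right p y x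
      have h7 := Metric.mem_ball.1 hpx.1
      have h8 := Metric.mem_ball.1 hy.1
      linarith
    have h5 : ((m : ℝ) + 1) * D.dl g y ≤ k * D.dl g y := by
      refine mul_le_mul_of_nonneg_right ?_ (D.dl_nonneg g y)
      exact_mod_cast hkm
    have h6 : ((m : ℝ) + 1) * D.dl g p ≤ ((m : ℝ) + 1) * (D.dl g y + 2 * r m) :=
      mul_le_mul_of_nonneg_left h4 (by positivity)
    have h7 := hr2 m
    push_cast
    nlinarith
  · intro q hq
    obtain ⟨m, hm⟩ := hCex q hq
    refine ⟨C m, hCopen m, hm, ?_⟩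
    refine ((htf m).finite_subsets.image (fun S' : Set M => ⋃ x ∈ S', W m x)).subset ?_
    rintro _ ⟨g, rfl⟩
    refine ⟨S g m, fun x hx => hx.1, ?_⟩
    ext z
    simp only [mem_iUnion, mem_inter_iff]
    constructor
    · rintro ⟨x, hx, hz⟩
      exact ⟨⟨m, x, hx, hz⟩, hz.2⟩
    · rintro ⟨⟨m', x, hx, hz⟩, hzC⟩
      have := hCdisj m' m z hz.2 hzC
      subst this
      exact ⟨x, hx, hz⟩
  · intro q hq g hqg
    have hcont := hFK.f_contAt M G D g q hqg
    have h1 : D.f g q < s := by
      have := hFK.f_le_NN M G D g q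
      linarith
    have h2 : ∀ᶠ y in 𝓝 q, D.f g y < s := hcont.eventually_lt continuousAt_const h1
    obtain ⟨ρ, hρ, hρs⟩ := Metric.eventually_nhds_iff_ball.1 h2
    obtain ⟨m0, hm0⟩ := exists_nat_gt ((s - s') / ρ)
    have hsmall : ∀ m, m0 ≤ m → 2 * r m < ρ / 2 := by
      intro m hm
      have h3 : (m0 : ℝ) ≤ m := by exact_mod_cast hm
      have h4 : (s - s') < ρ * m0 := by
        rw [div_lt_iff₀ hρ] at hm0
        linarith
      have h5 := hr2 m
      have h6 : (0 : ℝ) < (m : ℝ) + 1 := by positivity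
      have h7 : ((m : ℝ) + 1) * (2 * r m) < ((m : ℝ) + 1) * (ρ / 2) := by
        rw [h5]
        nlinarith
      exact lt_of_mul_lt_mul_left h7 h6.le
    refine ⟨Metric.ball q (ρ / 2) \ ⋃ m ∈ Finset.range m0, C m, ?_, ?_, ?_⟩
    · refine Metric.isOpen_ball.sdiff ?_
      exact isClosed_biUnion_finset fun m _ => hCclosed m
    · refine ⟨Metric.mem_ball_self (by linarith), ?_⟩
      simp only [mem_iUnion, not_exists]
      intro m _ hqm
      have h3 : s' < D.NN q := (hFK.lt_NN_iff M G D q s').2 ⟨m + 1, hqm.1⟩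
      linarith
    · rw [Set.disjoint_left]
      rintro z ⟨hz1, hz2⟩ hz3
      simp only [mem_iUnion] at hz3
      obtain ⟨m, x, ⟨hxt, y, hy, hys⟩, hzx⟩ := hz3
      have hm : m0 ≤ m := by
        by_contra hcon
        apply hz2
        simp only [mem_iUnion]
        exact ⟨m, Finset.mem_range.2 (by omega), hzx.2⟩
      have h3 : dist y q < ρ := by
        have h4 : dist y q ≤ dist y x + dist x z + dist z q := dist_triangle4 y x z q
        have h5 := Metric.mem_ball.1 hy.1
        have h6 := Metric.mem_ball.1 hzx.1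
        have h7 := Metric.mem_ball.1 hz1
        have h8 := hsmall m hm
        rw [dist_comm x z] at h4
        linarith
      have := hρs y h3
      linarith

end Pool.Agent.MD
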